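import Mathlib
import Pool.Agent.Helper17.SA.Main3

set_option autoImplicit false

open scoped Pointwise

namespace Pool.Agent.Results.MP_21f9f3_al.AlternatingFactors

/-- Property `(*)` at the prime `q`: some two Sylow `q`-subgroups intersect inside the
intersection of all Sylow `q`-subgroups. -/
def StarAt (G : Type) [Group G] (q : ℕ) : Prop :=
  ∃ P Q : Sylow q G, (P : Subgroup G) ⊓ (Q : Subgroup G) ≤ ⨅ R : Sylow q G, (R : Subgroup G)

/-- The synchronized statement for the family `p` of primes: for all Sylow `p i`-subgroups `P i`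
there is one `x` with `P i ∩ (P i) ^ x = O_{p i}(G)` for all `i`. -/
def SyncFor (G : Type) [Group G] {ι : Type} (p : ι → ℕ) : Prop :=
  ∀ P : ∀ i, Sylow (p i) G, ∃ x : G, ∀ i,
    (P i : Subgroup G) ⊓ MulAut.conj x⁻¹ • (P i : Subgroup G) =
      ⨅ Q : Sylow (p i) G, (Q : Subgroup G)

/-- Let `G` be a finite group and `p i` finitely many distinct primes.
(1) Suppose that every nonabelian composition factor of `G` is an alternating group (every proper
normal subgroup `M` is properly contained in a normal subgroup `M'` such that `M' / M` is nilpotent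
or a direct power of an alternating group of degree at least `5`), and that for every `i` all
quotients of `G` have `(*)` at `p i`, or `p i` is odd and `p i + 1` is not a power of `2`. Then the
synchronized statement holds for `G`.
(2) Let `1 = N 0 ≤ N 1 ≤ ... ≤ N k` be normal subgroups such that for `j < k` the factor
`N (j+1) / N j` is either nilpotent, and for every `i` the group `G / N j` has `(*)` at `p i` or `p i`
is odd and (the factor has odd order or `p i + 1` is not a power of `2`); or it is a direct product of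
alternating groups of degrees `7` or at least `9`; or a direct product of alternating groups of
degrees `5, 6, 8` and `G / N j` has `(*)` at `2` if `2` is one of the `p i`. Let `G / N k` be a direct
product of symmetric and alternating groups of arbitrary degrees with `(*)` at all `p i`. Then the
synchronized statement holds for `G`. -/
theorem result (G : Type) [Group G] [Finite G] (ι : Type) [Finite ι] (p : ι → ℕ)
    (hp : ∀ i, (p i).Prime) (hinj : Function.Injective p) :
    ((∀ i, (p i ≠ 2 ∧ ∀ c : ℕ, p i + 1 ≠ 2 ^ c) ∨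
        ∀ (M : Subgroup G) [M.Normal], StarAt (G ⧸ M) (p i)) →
      (∀ (M : Subgroup G) [M.Normal], M ≠ ⊤ → ∃ M' : Subgroup G, M'.Normal ∧ M < M' ∧
        (Group.IsNilpotent (M'.map (QuotientGroup.mk' M)) ∨
          ∃ (Ω : Type) (_ : Finite Ω) (m : ℕ), 5 ≤ m ∧
            Nonempty ((M'.map (QuotientGroup.mk' M)) ≃* (Ω → alternatingGroup (Fin m))))) →
      SyncFor G p) ∧
    (∀ (k : ℕ) (N : ℕ → Subgroup G) [∀ j, (N j).Normal], N 0 = ⊥ →
      (∀ j < k, N j ≤ N (j + 1)) →
      (∀ j < k,
        (Group.IsNilpotent ((N (j + 1)).map (QuotientGroup.mk' (N j))) ∧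
          ∀ i, StarAt (G ⧸ N j) (p i) ∨ (p i ≠ 2 ∧
            (Odd (Nat.card ((N (j + 1)).map (QuotientGroup.mk' (N j)))) ∨
              ∀ c : ℕ, p i + 1 ≠ 2 ^ c))) ∨
        (∃ (Ω : Type) (_ : Finite Ω) (m : Ω → ℕ),
          ((∀ ω, m ω = 7 ∨ 9 ≤ m ω) ∨
            ((∀ ω, m ω = 5 ∨ m ω = 6 ∨ m ω = 8) ∧ ∀ i, p i = 2 → StarAt (G ⧸ N j) 2)) ∧
          Nonempty (((N (j + 1)).map (QuotientGroup.mk' (N j))) ≃*
            ∀ ω, alternatingGroup (Fin (m ω))))) →
      ∀ (κ : Type) [Finite κ] (H : κ → Type) [∀ c, Group (H c)],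
      (∀ c, ∃ m : ℕ, Nonempty (H c ≃* Equiv.Perm (Fin m)) ∨
        Nonempty (H c ≃* alternatingGroup (Fin m))) →
      Nonempty ((G ⧸ N k) ≃* ∀ c, H c) → (∀ i, StarAt (G ⧸ N k) (p i)) → SyncFor G p) :=
  ⟨fun h1 h2 => Pool.Agent.Helper17.SA.kFI6 G ι p hp hinj h1 h2,
   fun k N _ h0 hle h κ _ H _ hH hG hst =>
    Pool.Agent.Helper17.SA.kFI5 G k N h0 hle ι p hp hinj h κ H hH hG hst⟩

end Pool.Agent.Results.MP_21f9f3_al.AlternatingFactors
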