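import Mathlib
import Pool.Agent.Helper88.SL.Chain

set_option autoImplicit false

open scoped Pointwise

universe u v

namespace Pool.Agent.Results.MP_21f9f3_al.NilpotentLifting

/-- Property `(*)` at the prime `q`: some two Sylow `q`-subgroups intersect inside the
intersection of all Sylow `q`-subgroups. -/
def StarAt (G : Type u) [Group G] (q : ℕ) : Prop :=
  ∃ P Q : Sylow q G, (P : Subgroup G) ⊓ (Q : Subgroup G) ≤ ⨅ R : Sylow q G, (R : Subgroup G)

/-- The synchronized statement for the family `p` of primes: for all Sylow `p i`-subgroups `P i`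
there is one `x` with `P i ∩ (P i) ^ x = O_{p i}(G)` for all `i`. -/
def SyncFor (G : Type u) [Group G] {ι : Type v} (p : ι → ℕ) : Prop :=
  ∀ P : ∀ i, Sylow (p i) G, ∃ x : G, ∀ i,
    (P i : Subgroup G) ⊓ MulAut.conj x⁻¹ • (P i : Subgroup G) =
      ⨅ Q : Sylow (p i) G, (Q : Subgroup G)

/-- Let `G` be a finite group and `p i` distinct primes.
(1) If `1 = N 0 ≤ N 1 ≤ ... ≤ N k` are normal subgroups of `G` with all `N (j+1) / N j` nilpotent,
all `G / N j` with `j < k` have property `(*)` at all `p i`, and the synchronized statement holds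
for `G / N k`, then it holds for `G`.
(2) If `G` has `(*)` at all `p i` and a nilpotent normal subgroup `N` with `G / N` nilpotent, then
the synchronized statement holds for `G`.
(3) If `G` is solvable and all quotients of `G` have `(*)` at all `p i`, then the synchronized
statement holds for `G`. -/
theorem result (G : Type u) [Group G] [Finite G] (ι : Type v) [Finite ι] (p : ι → ℕ)
    (hp : ∀ i, (p i).Prime) (hinj : Function.Injective p) :
    (∀ (k : ℕ) (N : ℕ → Subgroup G) [∀ j, (N j).Normal], N 0 = ⊥ →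
      (∀ j < k, N j ≤ N (j + 1)) →
      (∀ j < k, Group.IsNilpotent ((N (j + 1)).map (QuotientGroup.mk' (N j)))) →
      (∀ j < k, ∀ i, StarAt (G ⧸ N j) (p i)) → SyncFor (G ⧸ N k) p → SyncFor G p) ∧
    ((∀ i, StarAt G (p i)) →
      ∀ (N : Subgroup G) [N.Normal], Group.IsNilpotent N → Group.IsNilpotent (G ⧸ N) →
      SyncFor G p) ∧
    (Group.IsSolvable G → (∀ (M : Subgroup G) [M.Normal] (i : ι), StarAt (G ⧸ M) (p i)) →
      SyncFor G p) := by
  have hstar : ∀ (H : Type u) [Group H] (q : ℕ), StarAt H q →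
      ∃ P Q : Sylow q H, ∀ y ∈ P, y ∈ Q → ∀ R : Sylow q H, y ∈ R := by
    rintro H _ q ⟨P, Q, h⟩
    exact ⟨P, Q, fun y hy hy' R => Subgroup.mem_iInf.mp (h ⟨hy, hy'⟩) R⟩
  refine ⟨?_, ?_, ?_⟩
  · intro k N _ h0 hle hnil hst htop P
    rw [Pool.Agent.Helper88.SL.sync_iff]
    exact Pool.Agent.Helper88.SL.chain G k N h0 hle hnil p hp hinj
      (fun j hj i => hstar _ _ (hst j hj i))
      (fun P => (Pool.Agent.Helper88.SL.sync_iff p P).mp (htop P)) P
  · intro hst N _ hN hGN P
    rw [Pool.Agent.Helper88.SL.sync_iff]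
    exact Pool.Agent.Helper88.SL.metanilpotent G p hp hinj (fun i => hstar _ _ (hst i)) N hN hGN P
  · intro hs hst P
    rw [Pool.Agent.Helper88.SL.sync_iff]
    exact Pool.Agent.Helper88.SL.solvable G p hp hinj (fun M _ i => hstar _ _ (hst M i)) P

end Pool.Agent.Results.MP_21f9f3_al.NilpotentLifting
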