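import Mathlib
import Pool.Agent.Helper17.SA.Main3
import Pool.Agent.Helper26.SA.M_CRI

set_option autoImplicit false

open scoped Pointwise

namespace Pool.Agent.Results.MP_21f9f3_al.SimpleLifting

/-- Property `(*)` at the prime `q`: some two Sylow `q`-subgroups intersect inside the
intersection of all Sylow `q`-subgroups. -/
def StarAt (G : Type) [Group G] (q : ℕ) : Prop :=
  ∃ P Q : Sylow q G, (P : Subgroup G) ⊓ (Q : Subgroup G) ≤ ⨅ R : Sylow q G, (R : Subgroup G)

/-- The synchronized statement for the family `p` of primes: for all Sylow `p i`-subgroups `P i`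
there is one `x` with `P i ∩ (P i) ^ x = O_{p i}(G)` for all `i`. -/
def SyncFor (G : Type) [Group G] {ι : Type} (p : ι → ℕ) : Prop :=
  ∀ P : ∀ i, Sylow (p i) G, ∃ x : G, ∀ i,
    (P i : Subgroup G) ⊓ MulAut.conj x⁻¹ • (P i : Subgroup G) =
      ⨅ Q : Sylow (p i) G, (Q : Subgroup G)

/-- `2` for the prime `2`, `1` for odd primes. -/
def kap (p : ℕ) : ℕ := if p = 2 then 2 else 1

/-- `n` is good for the subgroups `T i` of `Aut S` and the shifts `c i ∈ S`: for all `i` the group
`T i` meets its conjugate by (the inner automorphism of) `c i * n` trivially. -/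
def GoodFor {S : Type} [Group S] {ι : Type} (T : ι → Subgroup (MulAut S)) (c : ι → S) (n : S) :
    Prop :=
  ∀ i, ∀ t ∈ T i, MulAut.conj (c i * n) * t * (MulAut.conj (c i * n))⁻¹ ∈ T i → t = 1

/-- A finite group `S` is ample: for all `p i`-subgroups `T i` of `Aut S` (`p i` finitely many
distinct primes) and all shifts `c i ∈ S` the number of good `n ∈ S` is larger than
`kap (p j) * |T j| * |T j ∩ Inn S|` for every `j`. -/
def Ample (S : Type) [Group S] : Prop :=
  ∀ (ι : Type) [Finite ι] (p : ι → ℕ), (∀ i, (p i).Prime) → Function.Injective p →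
    ∀ (T : ι → Subgroup (MulAut S)) (c : ι → S), (∀ i, IsPGroup (p i) (T i)) → ∀ j,
      kap (p j) * Nat.card (T j) * Nat.card {t : MulAut S // t ∈ T j ∧ ∃ a : S, t = MulAut.conj a} <
        Nat.card {n : S // GoodFor T c n}

/-- The double coset of `n0` is regular for the subgroups `V'`, `V`: `V` meets `n0⁻¹ V' n0`
trivially. -/
def Rg {S : Type} [Group S] (V' V : Subgroup S) (n0 : S) : Prop :=
  ∀ y ∈ V, n0 * y * n0⁻¹ ∈ V' → y = 1

/-- `n` lies in the double coset `V' n0 V`. -/
def InD {S : Type} [Group S] (V' V : Subgroup S) (n0 n : S) : Prop :=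
  ∃ a ∈ V', ∃ b ∈ V, n = a * n0 * b

/-- A finite group `S` has property Hit: it has a regular double coset of a Sylow `2`-subgroup, and
every regular double coset `V' n0 V` of Sylow `2`-subgroups contains, for all `p i`-subgroups `T i` of
`Aut S` (`p i` finitely many distinct odd primes), all shifts `c i` and every `j`, two good elements
`n, n'` such that `c j * n'` is not in the double coset `T j (c j * n) T j` (in `Aut S`). -/
def Hit (S : Type) [Group S] : Prop :=
  (∃ (V : Sylow 2 S) (n0 : S), Rg (V : Subgroup S) V n0) ∧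
  ∀ (V V' : Sylow 2 S) (n0 : S), Rg (V' : Subgroup S) V n0 →
    ∀ (ι : Type) [Finite ι] (p : ι → ℕ), (∀ i, (p i).Prime) → Function.Injective p →
      (∀ i, p i ≠ 2) → ∀ (T : ι → Subgroup (MulAut S)) (c : ι → S), (∀ i, IsPGroup (p i) (T i)) →
      ∀ j, ∃ n n' : S, InD (V' : Subgroup S) V n0 n ∧ InD (V' : Subgroup S) V n0 n' ∧
        GoodFor T c n ∧ GoodFor T c n' ∧
        ∀ t ∈ T j, ∀ t' ∈ T j, MulAut.conj (c j * n') ≠ t * MulAut.conj (c j * n) * t'

/-- The sum over the elements `y` of order `p` of `T` of `|C_S(y)|` times the number of elements of `T`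
that are conjugate to `y` under inner automorphisms. -/
noncomputable def mom (S : Type) [Group S] (T : Subgroup (MulAut S)) (p : ℕ) : ℕ :=
  Nat.card {x : MulAut S × MulAut S × S // x.1 ∈ T ∧ orderOf x.1 = p ∧ x.2.1 ∈ T ∧
    (∃ a : S, x.2.1 = MulAut.conj a * x.1 * (MulAut.conj a)⁻¹) ∧ x.1 x.2.2 = x.2.2}

/-- (1) Let `G` be a finite group with a normal subgroup `N` isomorphic to a direct product of
nonabelian simple groups `S ω` (which may be permuted by `G` and on which `G` may act by outer
automorphisms), and let `p i` be finitely many distinct primes. Suppose that all `S ω` are ample, or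
that all `S ω` have property Hit and `G` has `(*)` at `2` if `2` is one of the `p i`. If the synchronized
statement holds for `G / N` then it holds for `G`.
(2) A finite group `S` with trivial centre is ample if for all `p i`-subgroups `T i` of `Aut S` and all
`j` the sum of the `mom S (T i) (p i) / (p i - 1)` plus `kap (p j) * |T j| * |T j ∩ Inn S|` is smaller than
`|S|`.
(3) The alternating groups of degree `7` and of all degrees at least `9` are ample; those of degrees
`5, 6, 8` have property Hit. -/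
theorem result :
    (∀ (G : Type) [Group G] [Finite G] (N : Subgroup G) [N.Normal] (Ω : Type) [Finite Ω]
      (S : Ω → Type) [∀ ω, Group (S ω)], (∀ ω, IsSimpleGroup (S ω)) →
      (∀ ω, ∃ a b : S ω, a * b ≠ b * a) → Nonempty (N ≃* ∀ ω, S ω) →
      ∀ (ι : Type) [Finite ι] (p : ι → ℕ), (∀ i, (p i).Prime) → Function.Injective p →
        ((∀ ω, Ample (S ω)) ∨ ((∀ ω, Hit (S ω)) ∧ ∀ i, p i = 2 → StarAt G 2)) →
        SyncFor (G ⧸ N) p → SyncFor G p) ∧
    (∀ (S : Type) [Group S] [Finite S], (∀ z : S, (∀ a : S, z * a = a * z) → z = 1) →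
      (∀ (ι : Type) [Fintype ι] (p : ι → ℕ), (∀ i, (p i).Prime) → Function.Injective p →
        ∀ T : ι → Subgroup (MulAut S), (∀ i, IsPGroup (p i) (T i)) → ∀ j,
          ∑ i, mom S (T i) (p i) / (p i - 1) + kap (p j) * Nat.card (T j) *
            Nat.card {t : MulAut S // t ∈ T j ∧ ∃ a : S, t = MulAut.conj a} < Nat.card S) →
      Ample S) ∧
    (∀ m : ℕ, m = 7 ∨ 9 ≤ m → Ample (alternatingGroup (Fin m))) ∧
    (∀ m : ℕ, m = 5 ∨ m = 6 ∨ m = 8 → Hit (alternatingGroup (Fin m))) := by
  refine ⟨?_, fun S _ _ hz h => Pool.Agent.Helper26.SA.pCRI S hz h,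
    Pool.Agent.Helper17.SA.kAMP, Pool.Agent.Helper17.SA.kHAL⟩
  intro G _ _ N _ Ω _ S _ h1 h2 h3 ι _ p hp hinj h4 h5
  rcases h4 with h4 | ⟨h4, h6⟩
  · exact Pool.Agent.Helper17.SA.kLFT G N Ω S h1 h2 h4 h3 ι p hp hinj h5
  · exact Pool.Agent.Helper17.SA.kLFH G N Ω S h1 h2 h4 h3 ι p hp hinj h6 h5

end Pool.Agent.Results.MP_21f9f3_al.SimpleLifting
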