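import Mathlib
import Pool.Agent.Helper96.SyGroup

set_option autoImplicit false

open scoped Pointwise

universe u v

namespace Pool.Agent.Results.MP_21f9f3_al.SolvableIto

/-- Let `G` be a finite solvable group such that, for every prime `q`, the Sylow `q`-subgroups of
`G` are abelian, or `q` is odd and either `|G|` is odd or `q + 1` is not a power of two. Then for
distinct primes `p i` and Sylow `p i`-subgroups `P i` of `G` there is one element `x` with
`P i ∩ (P i) ^ x = O_{p i}(G)` for all `i`. -/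
theorem result (G : Type u) [Group G] [Finite G] [Group.IsSolvable G]
    (hG : ∀ q : ℕ, q.Prime → (∀ Q : Sylow q G, ∀ a ∈ Q, ∀ b ∈ Q, a * b = b * a) ∨
      (q ≠ 2 ∧ (Odd (Nat.card G) ∨ ∀ c : ℕ, q + 1 ≠ 2 ^ c)))
    (ι : Type v) [Finite ι] (p : ι → ℕ) (hp : ∀ i, (p i).Prime) (hinj : Function.Injective p)
    (P : ∀ i, Sylow (p i) G) :
    ∃ x : G, ∀ i, (P i : Subgroup G) ⊓ MulAut.conj x⁻¹ • (P i : Subgroup G) =
      ⨅ Q : Sylow (p i) G, (Q : Subgroup G) := by
  obtain ⟨x, hx⟩ := Pool.Agent.Helper96.Sy.group_main p hp hinj _ G rfl inferInstance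
    (fun i => hG (p i) (hp i)) P
  refine ⟨x, fun i => le_antisymm ?_ (le_inf (iInf_le _ _) (iInf_le _ (x⁻¹ • P i)))⟩
  rintro y ⟨hy1, hy2⟩
  rw [Subgroup.mem_iInf]
  exact hx i y hy1 ((Pool.Agent.Helper96.Sy.mem_conj_smul _ _ _).mp hy2)

end Pool.Agent.Results.MP_21f9f3_al.SolvableIto
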